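import Pool.Agent.Helper11.LV.QDefs
import Pool.Agent.Helper63.Q3.J1
import Pool.Agent.Helper31.Q3.J1a
import Pool.Agent.Helper80.Q3.J1bd

/-!
# Project LV, block D1: the size of the family `(p/q) = 1` for all `p ≤ y`
-/

set_option autoImplicit false

namespace Pool.Agent.Helper31.LV

open Finset Pool.Agent.Helper11.Q3 Pool.Agent.Helper11.LV

/-- the indicator at one prime -/
lemma ind_one {q p : ℕ} (hq : Odd q) (hp : p.Prime) :
    (1 - zq q p) / 2 = if jacobiSym (p : ℤ) q = 1 then (1 : ℝ) else 0 := by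
  have hq0 : q ≠ 0 := by rintro rfl; exact absurd hq (by decide)
  have : NeZero q := ⟨hq0⟩
  unfold zq
  by_cases hd : p ∣ q
  · rw [if_pos hd]
    have h0 : jacobiSym (p : ℤ) q = 0 := by
      rw [jacobiSym.eq_zero_iff_not_coprime]
      have : Int.gcd (p : ℤ) (q : ℤ) = p := by
        rw [Int.gcd_natCast_natCast]
        exact Nat.gcd_eq_left hd
      rw [this]
      exact hp.one_lt.ne'
    rw [h0]
    norm_num
  · rw [if_neg hd]
    have hc : Int.gcd (p : ℤ) (q : ℤ) = 1 := by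
      rw [Int.gcd_natCast_natCast]
      exact (Nat.Prime.coprime_iff_not_dvd hp).2 hd
    rcases jacobiSym.eq_one_or_neg_one hc with h | h
    · rw [h]
      norm_num
    · rw [h]
      norm_num

/-- the indicator of the family -/
lemma ind_all {Q y q : ℕ} (hq : q ∈ OS Q) :
    ∏ p ∈ Pr y, (1 - zq q p) / 2 = if (∀ p ∈ Pr y, jacobiSym (p : ℤ) q = 1) then (1 : ℝ) else 0 := by
  have hodd : Odd q := (Finset.mem_filter.1 hq).2.1
  rw [Finset.prod_congr rfl fun p hp => ind_one hodd (mem_Pr.1 hp).1]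
  by_cases h : ∀ p ∈ Pr y, jacobiSym (p : ℤ) q = 1
  · rw [if_pos h]
    exact Finset.prod_eq_one fun p hp => if_pos (h p hp)
  · rw [if_neg h]
    push Not at h
    obtain ⟨p, hp, hp'⟩ := h
    exact Finset.prod_eq_zero hp (if_neg hp')

lemma card_eq (Q y : ℕ) : ((Pool.Agent.Helper11.LV.Sub Q y).card : ℝ) = ∑ q ∈ OS Q, ∏ p ∈ Pr y, (1 - zq q p) / 2 := by
  rw [Finset.sum_congr rfl fun q hq => ind_all hq]
  unfold Pool.Agent.Helper11.LV.Sub
  rw [← Finset.sum_filter]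
  simp

lemma prod_bp (y : ℕ) : 1 / ((y : ℝ) + 1) ≤ ∏ p ∈ Pr y, (1 - bp p) := by
  have h1 : ∏ n ∈ Finset.Icc 1 y, ((n : ℝ) / (n + 1)) = 1 / ((y : ℝ) + 1) := by
    induction y with
    | zero => simp
    | succ y ih =>
      rw [Finset.prod_Icc_succ_top (by omega), ih]
      push_cast
      have : (y : ℝ) + 1 ≠ 0 := by positivity
      have : (y : ℝ) + 1 + 1 ≠ 0 := by positivity
      field_simp
  rw [← h1]
  unfold Pr
  rw [Finset.prod_filter]
  refine Finset.prod_le_prod (fun n _ => by positivity) fun n hn => ?_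
  have hn1 : 1 ≤ n := (Finset.mem_Icc.1 hn).1
  have hn0 : (0 : ℝ) < (n : ℝ) + 1 := by positivity
  have h2 : (n : ℝ) / (n + 1) = 1 - 1 / (n + 1) := by field_simp; ring
  split_ifs with hp
  · unfold bp
    split_ifs with h
    · rw [h2, sub_zero]
      have : 0 ≤ 1 / ((n : ℝ) + 1) := by positivity
      linarith
    · rw [h2]
  · rw [h2]
    have : 0 ≤ 1 / ((n : ℝ) + 1) := by positivity
    linarith

lemma prod_Pr_le (y : ℕ) : (∏ p ∈ Pr y, (p : ℝ)) ≤ 4 ^ y := by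
  have h := primorial_le_four_pow y
  have h2 : ∏ p ∈ Pr y, p = primorial y := by
    unfold primorial Pr
    refine Finset.prod_congr ?_ fun _ _ => rfl
    ext p
    simp only [Finset.mem_filter, Finset.mem_Icc, Finset.mem_range]
    constructor
    · rintro ⟨⟨_, h1⟩, h3⟩
      exact ⟨by omega, h3⟩
    · rintro ⟨h1, h3⟩
      exact ⟨⟨h3.one_lt.le, by omega⟩, h3⟩
  rw [← h2] at h
  have h3 : ((∏ p ∈ Pr y, p : ℕ) : ℝ) ≤ ((4 ^ y : ℕ) : ℝ) := Nat.cast_le.2 h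
  push_cast at h3
  exact h3

theorem sub_card_of (hJ : StmtJ1) : ∃ C : ℝ, 0 < C ∧ ∀ Q y : ℕ, 1 ≤ y →
    ((OS Q).card : ℝ) / (2 ^ (Pr y).card * (y + 1)) - C * 16 ^ y * Real.sqrt Q ≤ (Sub Q y).card := by
  obtain ⟨C, hC, h⟩ := hJ
  refine ⟨C, hC, fun Q y hy => ?_⟩
  set S := Pr y with hS
  have hP : ∀ p ∈ S, p.Prime := fun p hp => (mem_Pr.1 hp).1
  -- expansion
  have e1 : ((Pool.Agent.Helper11.LV.Sub Q y).card : ℝ) = (1 / 2) ^ S.card * ∑ T ∈ S.powerset, ∑ q ∈ OS Q, ∏ p ∈ T, (-zq q p) := by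
    rw [card_eq, Finset.sum_comm, Finset.mul_sum]
    refine Finset.sum_congr rfl fun q _ => ?_
    rw [← Finset.prod_one_add]
    have : ∏ p ∈ S, (1 - zq q p) / 2 = ∏ p ∈ S, ((1 / 2) * (1 + -zq q p)) :=
      Finset.prod_congr rfl fun p _ => by ring
    rw [this, Finset.prod_mul_distrib, Finset.prod_const]
  have e2 : ∀ T ∈ S.powerset, ((OS Q).card : ℝ) * ∏ p ∈ T, (-bp p) - C * (16 : ℝ) ^ y * Real.sqrt Q ≤
      ∑ q ∈ OS Q, ∏ p ∈ T, (-zq q p) := by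
    intro T hT
    have hTS := Finset.mem_powerset.1 hT
    have h1 := h Q T fun p hp => hP p (hTS hp)
    have h2 : ∀ q, ∏ p ∈ T, (-zq q p) = (-1) ^ T.card * ∏ p ∈ T, zq q p := by
      intro q
      rw [← Finset.prod_const, ← Finset.prod_mul_distrib]
      exact Finset.prod_congr rfl fun p _ => by ring
    have h3 : ∏ p ∈ T, (-bp p) = (-1) ^ T.card * ∏ p ∈ T, bp p := by
      rw [← Finset.prod_const, ← Finset.prod_mul_distrib]
      exact Finset.prod_congr rfl fun p _ => by ring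
    rw [Finset.sum_congr rfl fun q _ => h2 q, ← Finset.mul_sum, h3]
    have h4 : (∏ p ∈ T, (p : ℝ)) ^ 2 ≤ (16 : ℝ) ^ y := by
      have h5 : ∏ p ∈ T, (p : ℝ) ≤ ∏ p ∈ S, (p : ℝ) := by
        refine Finset.prod_le_prod_of_subset_of_one_le hTS (fun p _ => by positivity) fun p hp _ => ?_
        exact_mod_cast (hP p hp).one_lt.le
      have h6 := h5.trans (prod_Pr_le y)
      have h7 : (0 : ℝ) ≤ ∏ p ∈ T, (p : ℝ) := Finset.prod_nonneg fun p _ => by positivity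
      calc (∏ p ∈ T, (p : ℝ)) ^ 2 ≤ (4 ^ y) ^ 2 := by gcongr
        _ = (16 : ℝ) ^ y := by rw [← pow_mul, mul_comm, pow_mul]; norm_num
    have h8 : C * (∏ p ∈ T, (p : ℝ)) ^ 2 * Real.sqrt Q ≤ C * (16 : ℝ) ^ y * Real.sqrt Q := by gcongr
    have h9 := h1.trans h8
    rw [abs_le] at h9
    rcases neg_one_pow_eq_or ℝ T.card with h10 | h10
    · rw [h10]
      linarith [h9.1]
    · rw [h10]
      linarith [h9.2]
  have e3 := Finset.sum_le_sum e2
  rw [Finset.sum_sub_distrib, ← Finset.mul_sum, ← Finset.prod_one_add, Finset.sum_const, Finset.card_powerset,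
    nsmul_eq_mul] at e3
  have e4 : ∏ p ∈ S, (1 + -bp p) = ∏ p ∈ S, (1 - bp p) := Finset.prod_congr rfl fun p _ => by ring
  rw [e4] at e3
  have h5 := prod_bp y
  rw [e1]
  have hc0 : (0 : ℝ) ≤ (OS Q).card := Nat.cast_nonneg _
  have h2S : (0 : ℝ) < (1 / 2) ^ S.card := by positivity
  have h22 : (1 / 2 : ℝ) ^ S.card * 2 ^ S.card = 1 := by rw [← mul_pow]; norm_num
  have h6 : (1 / 2 : ℝ) ^ S.card * (((OS Q).card : ℝ) * ∏ p ∈ S, (1 - bp p) -
      ((2 ^ S.card : ℕ) : ℝ) * (C * (16 : ℝ) ^ y * Real.sqrt Q)) ≤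
      (1 / 2 : ℝ) ^ S.card * ∑ T ∈ S.powerset, ∑ q ∈ OS Q, ∏ p ∈ T, (-zq q p) :=
    mul_le_mul_of_nonneg_left e3 h2S.le
  refine le_trans ?_ h6
  have h7 : (1 / 2 : ℝ) ^ S.card * (((OS Q).card : ℝ) * ∏ p ∈ S, (1 - bp p) -
      ((2 ^ S.card : ℕ) : ℝ) * (C * (16 : ℝ) ^ y * Real.sqrt Q)) =
      (1 / 2 : ℝ) ^ S.card * (((OS Q).card : ℝ) * ∏ p ∈ S, (1 - bp p)) -
        ((1 / 2 : ℝ) ^ S.card * 2 ^ S.card) * (C * (16 : ℝ) ^ y * Real.sqrt Q) := by
    push_cast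
    ring
  rw [h7, h22, one_mul]
  have h8 : ((OS Q).card : ℝ) / (2 ^ S.card * (y + 1)) = (1 / 2 : ℝ) ^ S.card * (((OS Q).card : ℝ) * (1 / ((y : ℝ) + 1))) := by
    have : (y : ℝ) + 1 ≠ 0 := by positivity
    rw [one_div_pow]
    field_simp
  rw [h8]
  have h9 : (1 / 2 : ℝ) ^ S.card * (((OS Q).card : ℝ) * (1 / ((y : ℝ) + 1))) ≤
      (1 / 2 : ℝ) ^ S.card * (((OS Q).card : ℝ) * ∏ p ∈ S, (1 - bp p)) := by gcongr
  linarith

/-- D1 -/
theorem sub_card : ∃ C : ℝ, 0 < C ∧ ∀ Q y : ℕ, 1 ≤ y →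
    ((OS Q).card : ℝ) / (2 ^ (Pr y).card * (y + 1)) - C * 16 ^ y * Real.sqrt Q ≤ (Sub Q y).card :=
  sub_card_of (Pool.Agent.Helper63.Q3.j1 Pool.Agent.Helper31.Q3.j1a Pool.Agent.Helper11.Q3.j1b)

end Pool.Agent.Helper31.LV
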