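import Mathlib

/-!
# Project LV, block C4: the end of the series
-/

set_option autoImplicit false

namespace Pool.Agent.Helper31.LV

open Real

/-- one term -/
lemma term_le {L : ℝ} (hL : 48 ≤ L) {m : ℕ} (hm : Real.exp (2 * L) ≤ m) :
    (m : ℝ) ^ (-(1 / 2 : ℝ)) * Real.exp (-((L - Real.log m) ^ 2 / 4)) ≤ 1 / (m : ℝ) ^ 6 := by
  have hm0 : (0 : ℝ) < m := (Real.exp_pos _).trans_le hm
  have hm1 : (1 : ℝ) ≤ m := by
    refine le_trans ?_ hm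
    exact Real.one_le_exp (by linarith)
  have hlog : 2 * L ≤ Real.log m := by
    rw [Real.le_log_iff_exp_le hm0]
    exact hm
  have h1 : (m : ℝ) ^ (-(1 / 2 : ℝ)) ≤ 1 := Real.rpow_le_one_of_one_le_of_nonpos hm1 (by norm_num)
  have h2 : Real.exp (-((L - Real.log m) ^ 2 / 4)) ≤ 1 / (m : ℝ) ^ 6 := by
    have h3 : -((L - Real.log m) ^ 2 / 4) ≤ -(6 * Real.log m) := by
      have h4 : Real.log m / 2 ≤ Real.log m - L := by linarith
      have h5 : (Real.log m / 2) ^ 2 ≤ (Real.log m - L) ^ 2 := by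
        apply pow_le_pow_left₀ _ h4
        linarith
      nlinarith
    refine (Real.exp_le_exp.2 h3).trans (le_of_eq ?_)
    rw [Real.exp_neg, ← Nat.cast_ofNat (n := 6), Real.exp_nat_mul, Real.exp_log hm0, one_div]
  calc (m : ℝ) ^ (-(1 / 2 : ℝ)) * Real.exp (-((L - Real.log m) ^ 2 / 4))
      ≤ 1 * (1 / (m : ℝ) ^ 6) := mul_le_mul h1 h2 (Real.exp_nonneg _) zero_le_one
    _ = 1 / (m : ℝ) ^ 6 := one_mul _

/-- C4: the end of the series -/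
theorem series_end : ∃ L0 : ℝ, ∀ L : ℝ, L0 ≤ L → ∀ N : ℕ, Real.exp (2 * L) ≤ N →
    Summable (fun n : ℕ => ((n + 1 : ℕ) : ℝ) ^ (-(1 / 2 : ℝ)) * Real.exp (-((L - Real.log (n + 1 : ℕ)) ^ 2 / 4))) ∧
    ∑' n : ℕ, ((n + N + 1 : ℕ) : ℝ) ^ (-(1 / 2 : ℝ)) * (4 * Real.exp (-((L - Real.log (n + N + 1 : ℕ)) ^ 2 / 4))) ≤ 1 := by
  refine ⟨48, fun L hL N hN => ?_⟩
  have hN1 : (2 : ℝ) ≤ N := by
    refine le_trans ?_ hN
    have := Real.add_one_le_exp (2 * L)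
    linarith
  have hz : Summable fun n : ℕ => 1 / ((n : ℝ) + 1) ^ 2 := by
    have := (summable_nat_add_iff 1).2 (Real.summable_one_div_nat_pow.2 one_lt_two)
    simpa using this
  have hz2 : ∑' n : ℕ, 1 / ((n : ℝ) + 1) ^ 2 ≤ 2 := by
    have h1 := hasSum_zeta_two
    have h2 : ∑' n : ℕ, 1 / ((n : ℝ) + 1) ^ 2 = Real.pi ^ 2 / 6 := by
      have h3 := h1.tsum_eq
      rw [h1.summable.tsum_eq_zero_add] at h3
      simpa using h3
    rw [h2]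
    have := Real.pi_lt_d2
    have := Real.pi_pos
    nlinarith
  have hshift : ∀ n : ℕ, ((n + N + 1 : ℕ) : ℝ) ^ (-(1 / 2 : ℝ)) * Real.exp (-((L - Real.log (n + N + 1 : ℕ)) ^ 2 / 4)) ≤
      (1 / 8) * (1 / ((n : ℝ) + 1) ^ 2) := by
    intro n
    have h1 : Real.exp (2 * L) ≤ ((n + N + 1 : ℕ) : ℝ) := by
      refine hN.trans ?_
      exact_mod_cast (by omega : N ≤ n + N + 1)
    refine (term_le hL h1).trans ?_
    have h2 : (n : ℝ) + 1 ≤ ((n + N + 1 : ℕ) : ℝ) := by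
      push_cast
      linarith
    have h3 : (2 : ℝ) ≤ ((n + N + 1 : ℕ) : ℝ) := by
      push_cast
      have : (0 : ℝ) ≤ n := Nat.cast_nonneg _
      linarith
    set x : ℝ := ((n + N + 1 : ℕ) : ℝ) with hx
    have hn0 : (0 : ℝ) < (n : ℝ) + 1 := by positivity
    have h4 : ((n : ℝ) + 1) ^ 2 ≤ x ^ 2 := pow_le_pow_left₀ hn0.le h2 2
    have h5 : (16 : ℝ) ≤ x ^ 4 := by
      have := pow_le_pow_left₀ (by norm_num : (0 : ℝ) ≤ 2) h3 4
      norm_num at this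
      exact this
    have h6 : 8 * ((n : ℝ) + 1) ^ 2 ≤ x ^ 6 := by
      calc 8 * ((n : ℝ) + 1) ^ 2 ≤ 16 * x ^ 2 := by nlinarith [sq_nonneg x]
        _ ≤ x ^ 4 * x ^ 2 := by gcongr
        _ = x ^ 6 := by ring
    rw [one_div_mul_one_div]
    exact one_div_le_one_div_of_le (by positivity) h6
  have hsum : Summable (fun n : ℕ => ((n + N + 1 : ℕ) : ℝ) ^ (-(1 / 2 : ℝ)) *
      Real.exp (-((L - Real.log (n + N + 1 : ℕ)) ^ 2 / 4))) :=
    Summable.of_nonneg_of_le (fun n => by positivity) hshift (hz.mul_left _)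
  refine ⟨?_, ?_⟩
  · have h := (summable_nat_add_iff (f := fun n : ℕ => ((n + 1 : ℕ) : ℝ) ^ (-(1 / 2 : ℝ)) *
      Real.exp (-((L - Real.log (n + 1 : ℕ)) ^ 2 / 4))) N).1 hsum
    exact h
  · have e1 : ∀ n : ℕ, ((n + N + 1 : ℕ) : ℝ) ^ (-(1 / 2 : ℝ)) * (4 * Real.exp (-((L - Real.log (n + N + 1 : ℕ)) ^ 2 / 4))) =
        4 * (((n + N + 1 : ℕ) : ℝ) ^ (-(1 / 2 : ℝ)) * Real.exp (-((L - Real.log (n + N + 1 : ℕ)) ^ 2 / 4))) := fun n => by ring
    rw [tsum_congr e1, tsum_mul_left]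
    have h1 := Summable.tsum_le_tsum hshift hsum (hz.mul_left _)
    rw [tsum_mul_left] at h1
    linarith

end Pool.Agent.Helper31.LV
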